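import Pool.Agent.H90.NearestSign.Defs
import Pool.Agent.H90.NearestSign.Main

/-!
A nearest-sign rotation sequence whose sign sequence has period `28`.
-/

open Pool.Agent.H90.NearestSign

namespace Pool.Agent.Results.MP_fc1ccb_an.PeriodTwentyEight

/-- **Main theorem.** There are an irrational `α > 0` and `z_{-1} ∈ ℂ` with `(α, z_{-1})` admissible
whose sign sequence is eventually periodic with period `28`, a multiple of `4`. -/
theorem result : ∃ (α : ℝ) (z₀ : ℂ), Irrational α ∧ 0 < α ∧ Admissible α z₀ ∧
    EventuallyPeriodic (signSeq α z₀) ∧ period (signSeq α z₀) = 28 ∧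
    4 ∣ period (signSeq α z₀) :=
  ⟨al, VV 0, al_irrational, al_pos, admissible, ⟨28, isEventualPeriod_28⟩, period_eq, by
    rw [period_eq]; norm_num⟩

end Pool.Agent.Results.MP_fc1ccb_an.PeriodTwentyEight
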